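import Mathlib

/-!
Almost symmetries of a set (general part), for MP_d3aff2_co.
-/

set_option autoImplicit false

namespace Pool.Agent.KS6_12.RN

open Filter Set Equiv

section

variable {X : Type} {A : Set X} {a b g h t : Perm X} {x : X}

theorem ais (g : Perm X) (x : X) : g (g⁻¹ x) = x := g.apply_symm_apply x

theorem ias (g : Perm X) (x : X) : g⁻¹ (g x) = x := g.symm_apply_apply x

/-- The points at which `g` does not respect `A`. -/
def Df (A : Set X) (g : Perm X) : Set X := {x | ¬ (g x ∈ A ↔ x ∈ A)}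

/-- `g` is an almost symmetry of `A`. -/
def Al (A : Set X) (g : Perm X) : Prop := (Df A g).Finite

/-- The forward limit of the colour along the orbit of `a`. -/
def K (A : Set X) (a : Perm X) (x : X) : Prop := ∀ᶠ n : ℕ in atTop, (a ^ n) x ∈ A

/-- Points with a free orbit under `a`, `b`. -/
def Xo (a b : Perm X) (x : X) : Prop :=
  Function.Injective fun p : ℤ × ℤ => (a ^ p.1) ((b ^ p.2) x)

theorem al_mul (hg : Al A g) (hh : Al A h) : Al A (g * h) := by
  refine ((hg.preimage h.injective.injOn).union hh).subset fun x hx => ?_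
  by_contra hn
  simp only [mem_union, mem_preimage, not_or] at hn
  unfold Df at hx hn
  simp only [mem_ofPred_eq, not_not] at hx hn
  exact hx (by rw [Perm.mul_apply]; exact hn.1.trans hn.2)

theorem al_inv (hg : Al A g) : Al A g⁻¹ := by
  refine (hg.image g).subset fun x hx => ⟨g⁻¹ x, ?_, ais g x⟩
  unfold Df at *
  simp only [mem_ofPred_eq, ais] at *
  exact fun h => hx h.symm

theorem al_pow (hg : Al A g) (n : ℕ) : Al A (g ^ n) := by
  induction n with
  | zero => simp [Al, Df]
  | succ n ih => rw [pow_succ]; exact al_mul ih hg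

theorem ev_not {D : Set X} (hD : D.Finite) (hi : Function.Injective fun n : ℕ => (a ^ n) x) :
    ∀ᶠ n : ℕ in atTop, (a ^ n) x ∉ D := by
  have h1 : ((fun n : ℕ => (a ^ n) x) ⁻¹' D).Finite := hD.preimage hi.injOn
  rw [← Nat.cofinite_eq_atTop]
  exact h1.eventually_cofinite_notMem

theorem K_dich (ha : Al A a) (hi : Function.Injective fun n : ℕ => (a ^ n) x) :
    K A a x ∨ ∀ᶠ n : ℕ in atTop, (a ^ n) x ∉ A := by
  obtain ⟨N, hN⟩ := eventually_atTop.1 (ev_not ha hi)
  have h1 : ∀ n, N ≤ n → ((a ^ n) x ∈ A ↔ (a ^ N) x ∈ A) := by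
    intro n hn
    induction n, hn using Nat.le_induction with
    | base => exact Iff.rfl
    | succ n hn ih =>
      rw [← ih]
      have := hN n hn
      unfold Df at this
      simp only [mem_ofPred_eq, not_not] at this
      rwa [pow_succ', Perm.mul_apply]
  by_cases h : (a ^ N) x ∈ A
  · exact Or.inl (eventually_atTop.2 ⟨N, fun n hn => (h1 n hn).2 h⟩)
  · exact Or.inr (eventually_atTop.2 ⟨N, fun n hn h' => h ((h1 n hn).1 h')⟩)

theorem K_of_freq (ha : Al A a) (hi : Function.Injective fun n : ℕ => (a ^ n) x)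
    (h : ∃ᶠ n : ℕ in atTop, (a ^ n) x ∈ A) : K A a x := by
  rcases K_dich ha hi with h1 | h1
  · exact h1
  · exact absurd h1 h

theorem K_self : K A a (a x) ↔ K A a x := by
  unfold K
  rw [eventually_atTop, eventually_atTop]
  constructor
  · rintro ⟨N, hN⟩
    refine ⟨N + 1, fun n hn => ?_⟩
    obtain ⟨m, rfl⟩ : ∃ m, n = m + 1 := ⟨n - 1, by omega⟩
    have := hN m (by omega)
    rwa [pow_succ, Perm.mul_apply]
  · rintro ⟨N, hN⟩
    refine ⟨N, fun n hn => ?_⟩
    have := hN (n + 1) (by omega)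
    rwa [pow_succ, Perm.mul_apply] at this

/-- Moving by an almost symmetry, with the conjugated dynamics. -/
theorem K_conj {a' : Perm X} (hg : Al A g) (hc : a * g = g * a')
    (hi : Function.Injective fun n : ℕ => (a' ^ n) x) : K A a (g x) ↔ K A a' x := by
  have hp : ∀ n : ℕ, (a ^ n) (g x) = g ((a' ^ n) x) := by
    intro n
    have : a ^ n * g = g * a' ^ n := by
      induction n with
      | zero => simp
      | succ n ih => rw [pow_succ, mul_assoc, hc, ← mul_assoc, ih, mul_assoc, ← pow_succ]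
    rw [← Perm.mul_apply, this, Perm.mul_apply]
  have h1 := ev_not (a := a') (x := x) hg hi
  unfold K
  constructor
  · intro h
    filter_upwards [h, h1] with n h2 h3
    unfold Df at h3
    simp only [mem_ofPred_eq, not_not] at h3
    rw [hp] at h2
    exact h3.1 h2
  · intro h
    filter_upwards [h, h1] with n h2 h3
    unfold Df at h3
    simp only [mem_ofPred_eq, not_not] at h3
    rw [hp]
    exact h3.2 h2

theorem Xo_nat (hx : Xo a b x) : Function.Injective fun n : ℕ => (a ^ n) x := by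
  intro n m h
  have h1 := @hx ((n : ℤ), 0) ((m : ℤ), 0) (by simpa using h)
  simpa using h1

theorem Xo_a (hx : Xo a b x) (hc : Commute a b) : Xo a b (a x) := by
  intro p q h
  have h1 := @hx (p.1 + 1, p.2) (q.1 + 1, q.2) (by
    have e : ∀ r : ℤ × ℤ, (a ^ (r.1 + 1)) ((b ^ r.2) x) = (a ^ r.1) ((b ^ r.2) (a x)) := by
      intro r
      have : a ^ (r.1 + 1) * b ^ r.2 = a ^ r.1 * (b ^ r.2 * a) := by
        rw [zpow_add_one, mul_assoc]
        congr 1
        exact (hc.zpow_right r.2).eq
      calc (a ^ (r.1 + 1)) ((b ^ r.2) x) = (a ^ (r.1 + 1) * b ^ r.2) x := rfl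
        _ = _ := by rw [this]; rfl
    simp only [e]
    exact h)
  have h2 := congrArg Prod.fst h1
  have h3 := congrArg Prod.snd h1
  simp only at h2 h3
  exact Prod.ext (by omega) h3

theorem Xo_inv (hx : Xo a b x) : Xo a⁻¹ b x := by
  intro p q h
  have h1 := @hx (-p.1, p.2) (-q.1, q.2) (by simpa using h)
  have h2 := congrArg Prod.fst h1
  have h3 := congrArg Prod.snd h1
  simp only at h2 h3
  exact Prod.ext (by omega) h3

theorem Xo_b (hx : Xo a b x) (m : ℤ) : Xo a b ((b ^ m) x) := by
  intro p q h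
  have h1 := @hx (p.1, p.2 + m) (q.1, q.2 + m) (by
    have e : ∀ r : ℤ × ℤ, (a ^ r.1) ((b ^ (r.2 + m)) x) = (a ^ r.1) ((b ^ r.2) ((b ^ m) x)) := by
      intro r
      rw [zpow_add]; rfl
    simp only [e]
    exact h)
  have h2 := congrArg Prod.fst h1
  have h3 := congrArg Prod.snd h1
  simp only at h2 h3
  exact Prod.ext h2 (by omega)

theorem K_far (hb : Al A b) (hc : Commute a b) (hx : Xo a b x) (m : ℕ) :
    K A a ((b ^ m) x) ↔ K A a x :=
  K_conj (al_pow hb m) (hc.pow_right m).eq (Xo_nat hx)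

/-- The two ends agree. -/
theorem K_inv (ha : Al A a) (hb : Al A b) (hc : Commute a b) (hx : Xo a b x) :
    K A a⁻¹ x ↔ K A a x := by
  -- choose `m` such that the line through `b ^ m x` avoids the bad set
  have hbad : {m : ℕ | ∃ n : ℤ, (a ^ n) ((b ^ (m : ℤ)) x) ∈ Df A a}.Finite := by
    have h1 : ((fun p : ℤ × ℤ => (a ^ p.1) ((b ^ p.2) x)) ⁻¹' (Df A a)).Finite :=
      ha.preimage hx.injOn
    refine ((h1.image Prod.snd).preimage (f := fun m : ℕ => (m : ℤ))
      Nat.cast_injective.injOn).subset ?_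
    rintro m ⟨n, hn⟩
    exact ⟨(n, (m : ℤ)), hn, rfl⟩
  obtain ⟨m, hm⟩ : ∃ m : ℕ, ¬ ∃ n : ℤ, (a ^ n) ((b ^ (m : ℤ)) x) ∈ Df A a := by
    by_contra h
    push Not at h
    exact Set.infinite_univ (hbad.subset fun m _ => h m)
  push Not at hm
  set y := (b ^ m) x with hy
  have hyz : (b ^ (m : ℤ)) x = y := by rw [hy, zpow_natCast]
  rw [hyz] at hm
  have hup : ∀ n : ℕ, ((a ^ n) y ∈ A ↔ y ∈ A) := by
    intro n
    induction n with
    | zero => simp
    | succ n ih =>
      rw [← ih]
      have := hm n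
      unfold Df at this
      simp only [mem_ofPred_eq, not_not, zpow_natCast] at this
      rwa [pow_succ', Perm.mul_apply]
  have hdn : ∀ n : ℕ, ((a⁻¹ ^ n) y ∈ A ↔ y ∈ A) := by
    intro n
    induction n with
    | zero => simp
    | succ n ih =>
      rw [← ih]
      have := hm (-(n + 1 : ℤ))
      unfold Df at this
      simp only [mem_ofPred_eq, not_not] at this
      have e1 : a ((a ^ (-(n + 1 : ℤ))) y) = (a⁻¹ ^ n) y := by
        rw [← Perm.mul_apply, ← zpow_one_add]
        rw [show (1 + -(n + 1 : ℤ)) = -(n : ℤ) by ring, zpow_neg, zpow_natCast, inv_pow]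
      have e2 : (a ^ (-(n + 1 : ℤ))) y = (a⁻¹ ^ (n + 1)) y := by
        rw [zpow_neg, ← Nat.cast_succ, zpow_natCast, inv_pow]
      rw [e1, e2] at this
      exact this.symm
  have h1 : K A a y ↔ y ∈ A := by
    unfold K
    simp only [hup]
    exact Filter.eventually_const
  have h2 : K A a⁻¹ y ↔ y ∈ A := by
    unfold K
    simp only [hdn]
    exact Filter.eventually_const
  rw [← K_far hb hc hx m, ← K_far hb hc.inv_left (Xo_inv hx) m, ← hy, h1, h2]

/-- The limit colour differs from the colour at finitely many points only. -/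
theorem fin_S (ha : Al A a) (hb : Al A b) (hc : Commute a b) :
    {x | Xo a b x ∧ ¬ (x ∈ A ↔ K A a x)}.Finite := by
  -- the orbit meets the bad set
  have h1 : ∀ x, Xo a b x → ¬ (x ∈ A ↔ K A a x) → ∃ n : ℕ, (a ^ n) x ∈ Df A a := by
    intro x _ hne
    by_contra h
    push Not at h
    have hup : ∀ n : ℕ, ((a ^ n) x ∈ A ↔ x ∈ A) := by
      intro n
      induction n with
      | zero => simp
      | succ n ih =>
        rw [← ih]
        have := h n
        unfold Df at this
        simp only [mem_ofPred_eq, not_not] at this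
        rwa [pow_succ', Perm.mul_apply]
    refine hne ?_
    unfold K
    simp only [hup]
    exact Filter.eventually_const.symm
  have h2 : ∀ z ∈ Df A a, {n : ℕ | Xo a b ((a⁻¹ ^ n) z) ∧
      ¬ ((a⁻¹ ^ n) z ∈ A ↔ K A a ((a⁻¹ ^ n) z))}.Finite := by
    intro z _
    by_cases hz : ∃ n : ℕ, Xo a b ((a⁻¹ ^ n) z)
    · obtain ⟨n0, hn0⟩ := hz
      have hz : Xo a b z := by
        have h3 : ∀ n : ℕ, Xo a b ((a ^ n) ((a⁻¹ ^ n0) z)) := by
          intro n
          induction n with
          | zero => simpa using hn0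
          | succ n ih => rw [pow_succ', Perm.mul_apply]; exact Xo_a ih hc
        have := h3 n0
        rwa [← Perm.mul_apply, inv_pow, mul_inv_cancel, Perm.one_apply] at this
      have hK : ∀ n : ℕ, K A a ((a⁻¹ ^ n) z) ↔ K A a z := by
        intro n
        induction n with
        | zero => simp
        | succ n ih =>
          rw [← ih, ← K_self (a := a) (x := (a⁻¹ ^ (n + 1)) z)]
          rw [pow_succ' a⁻¹, Perm.mul_apply, ais]
      have hd := K_inv ha hb hc hz
      have : ∀ᶠ n : ℕ in atTop, ((a⁻¹ ^ n) z ∈ A ↔ K A a ((a⁻¹ ^ n) z)) := by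
        rcases K_dich (al_inv ha) (Xo_nat (Xo_inv hz)) with h | h
        · have h' : K A a z := hd.1 h
          filter_upwards [h] with n hn
          rw [hK n]
          exact ⟨fun _ => h', fun _ => hn⟩
        · have h' : ¬ K A a z := by
            intro h'
            have h4 := hd.2 h'
            obtain ⟨n, hn1, hn2⟩ := (h.and h4).exists
            exact hn1 hn2
          filter_upwards [h] with n hn
          rw [hK n]
          exact ⟨fun e => absurd e hn, fun e => absurd e h'⟩
      rw [← Nat.cofinite_eq_atTop] at this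
      have h5 : {n : ℕ | ¬ ((a⁻¹ ^ n) z ∈ A ↔ K A a ((a⁻¹ ^ n) z))}.Finite := this
      exact h5.subset fun n hn => hn.2
    · push Not at hz
      refine Set.finite_empty.subset fun n hn => hz n hn.1
  refine (Set.Finite.biUnion ha fun z hz => (h2 z hz).image fun n => (a⁻¹ ^ n) z).subset ?_
  rintro x ⟨hx1, hx2⟩
  obtain ⟨n, hn⟩ := h1 x hx1 hx2
  have e : (a⁻¹ ^ n) ((a ^ n) x) = x := by
    rw [← Perm.mul_apply, inv_pow, inv_mul_cancel, Perm.one_apply]
  refine mem_biUnion hn ⟨n, ?_, e⟩
  show Xo a b _ ∧ _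
  rw [e]
  exact ⟨hx1, hx2⟩

/-- **Rigidity.**  If the group `Γ` of almost symmetries of `A` contains two suitable commuting
elements, then `A` is a finite change of a set which is invariant under `Γ`. -/
theorem rigid (ha : Al A a) (hb : Al A b) (hc : Commute a b) (Γ : Set (Perm X))
    (hΓ : ∀ g ∈ Γ, Al A g) (h1 : ∀ g ∈ Γ, Commute a (g⁻¹ * a * g))
    (h2 : ∀ g ∈ Γ, ∀ x, Xo a b x → Xo a b (g x)) (h3 : ∀ g ∈ Γ, ∀ x, ¬ Xo a b x → g x = x) :
    ∃ C : Set X, {x | ¬ (x ∈ C ↔ x ∈ A)}.Finite ∧ ∀ g ∈ Γ, ∀ x, g x ∈ C ↔ x ∈ C := by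
  refine ⟨{x | (Xo a b x ∧ K A a x) ∨ (¬ Xo a b x ∧ x ∈ A)}, ?_, ?_⟩
  · refine (fin_S ha hb hc).subset fun x hx => ?_
    simp only [mem_ofPred_eq] at hx ⊢
    tauto
  · intro g hg x
    by_cases hx : Xo a b x
    swap
    · rw [h3 g hg x hx]
    have hgx := h2 g hg x hx
    have hgo : Xo (g⁻¹ * a * g) (g⁻¹ * b * g) x := by
      intro p q h
      apply hgx
      have e : ∀ r : ℤ × ℤ, ((g⁻¹ * a * g) ^ r.1) (((g⁻¹ * b * g) ^ r.2) x) =
          g⁻¹ ((a ^ r.1) ((b ^ r.2) (g x))) := by
        intro r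
        have e1 : ∀ (c : Perm X) (k : ℤ), (g⁻¹ * c * g) ^ k = g⁻¹ * c ^ k * g := by
          intro c k
          have := conj_zpow (i := k) (a := g⁻¹) (b := c)
          rw [inv_inv] at this
          exact this
        rw [e1, e1]
        simp [Perm.mul_apply]
      simp only [e] at h
      exact g⁻¹.injective h
    have hKK : K A a (g x) ↔ K A (g⁻¹ * a * g) x := by
      refine K_conj (hΓ g hg) ?_ (Xo_nat hgo)
      group
    -- the two limits agree
    have hag : Al A (g⁻¹ * a * g) := al_mul (al_mul (al_inv (hΓ g hg)) ha) (hΓ g hg)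
    have hbg : Al A (g⁻¹ * b * g) := al_mul (al_mul (al_inv (hΓ g hg)) hb) (hΓ g hg)
    have hcg : Commute (g⁻¹ * a * g) (g⁻¹ * b * g) := by
      show (g⁻¹ * a * g) * (g⁻¹ * b * g) = (g⁻¹ * b * g) * (g⁻¹ * a * g)
      have := hc.eq
      calc (g⁻¹ * a * g) * (g⁻¹ * b * g) = g⁻¹ * (a * b) * g := by group
        _ = g⁻¹ * (b * a) * g := by rw [this]
        _ = _ := by group
    have hgo' : ∀ y, Xo a b y → Xo (g⁻¹ * a * g) (g⁻¹ * b * g) y := by
      intro y hy p q h
      apply h2 g hg y hy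
      have e : ∀ r : ℤ × ℤ, ((g⁻¹ * a * g) ^ r.1) (((g⁻¹ * b * g) ^ r.2) y) =
          g⁻¹ ((a ^ r.1) ((b ^ r.2) (g y))) := by
        intro r
        have e1 : ∀ (c : Perm X) (k : ℤ), (g⁻¹ * c * g) ^ k = g⁻¹ * c ^ k * g := by
          intro c k
          have := conj_zpow (i := k) (a := g⁻¹) (b := c)
          rw [inv_inv] at this
          exact this
        rw [e1, e1]
        simp [Perm.mul_apply]
      simp only [e] at h
      exact g⁻¹.injective h
    have hfin : {y | Xo a b y ∧ ¬ (K A (g⁻¹ * a * g) y ↔ K A a y)}.Finite := by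
      refine ((fin_S ha hb hc).union (fin_S hag hbg hcg)).subset fun y hy => ?_
      by_contra hn
      simp only [mem_union, mem_ofPred_eq, not_or, not_and, not_not] at hn
      exact hy.2 ((hn.2 (hgo' y hy.1)).symm.trans (hn.1 hy.1))
    have heq : K A (g⁻¹ * a * g) x ↔ K A a x := by
      by_contra hne
      have hall : ∀ n : ℕ, (a ^ n) x ∈ {y | Xo a b y ∧ ¬ (K A (g⁻¹ * a * g) y ↔ K A a y)} := by
        intro n
        induction n with
        | zero => exact ⟨by simpa using hx, by simpa using hne⟩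
        | succ n ih =>
          rw [pow_succ', Perm.mul_apply]
          refine ⟨Xo_a ih.1 hc, ?_⟩
          rw [K_self, K_conj ha (h1 g hg).symm.eq (Xo_nat (hgo' _ ih.1))]
          exact ih.2
      exact (Set.infinite_of_injective_forall_mem (Xo_nat hx) hall) hfin
    simp only [mem_ofPred_eq, hx, hgx, true_and, not_true_eq_false, false_and, or_false]
    exact hKK.trans heq

end

end Pool.Agent.KS6_12.RN
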