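import Pool.Graph.R_seed8.Results.MP_d3aff2_co.ReplacementInfinite

/-!
A colouring of `ℝⁿ`, `n ≥ 4`, which no change of countably many points makes distinguishing
(after the library result for finite changes).
-/

set_option autoImplicit false

namespace Pool.Agent.KS6_12.RN.Four

open Cardinal Pool.Agent.Results.MP_d3aff2_co.ReplacementInfinite
open scoped Quaternion

/-- the set coded by a sequence -/
def cd {X : Type} (f : ℕ → Option X) : Set X := {x | ∃ m, f m = some x}

theorem cd_surj {X : Type} {S : Set X} (hS : S.Countable) : ∃ f : ℕ → Option X, cd f = S := by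
  classical
  rcases S.eq_empty_or_nonempty with rfl | hne
  · refine ⟨fun _ => none, ?_⟩
    ext x
    simp [cd]
  · obtain ⟨f, hf⟩ := hS.exists_eq_range hne
    refine ⟨fun n => some (f n), ?_⟩
    rw [hf]
    ext x
    simp [cd]

theorem card_le' (n : ℕ) : #(ℕ → Option (E n)) ≤ 𝔠 := by
  have h1 : #(E n) ≤ 𝔠 := by
    have h2 : #(E n) = #(Fin n → ℝ) := Cardinal.mk_congr (WithLp.equiv 2 (Fin n → ℝ))
    rw [h2]
    have h3 : #(Fin n → ℝ) ≤ #(ℕ → ℝ) := by
      refine Cardinal.mk_le_of_injective (f := fun f i => if h : i < n then f ⟨i, h⟩ else 0) ?_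
      intro f g hfg
      funext i
      have := congrFun hfg i
      simpa using this
    refine h3.trans ?_
    simp [Cardinal.mk_real]
  have h4 : #(Option (E n)) ≤ 𝔠 := by
    rw [Cardinal.mk_option]
    exact Cardinal.add_le_of_le aleph0_le_continuum h1 (one_le_aleph0.trans aleph0_le_continuum)
  have h2 : #(ℕ → Option (E n)) = #(Option (E n)) ^ (ℵ₀ : Cardinal.{0}) := by
    rw [← mk_nat]; rfl
  rw [h2]
  exact (Cardinal.power_le_power_right h4).trans continuum_power_aleph0.le

theorem four (k : ℕ) : ∃ c : E (4 + k) → Fin 2, ∀ c' : E (4 + k) → Fin 2,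
    {x | c' x ≠ c x}.Countable → ¬ Distinguishing c' := by
  classical
  obtain ⟨lam, hlam, hn⟩ := Pool.Agent.R881.FreeQuat.exists_family (ℕ → Option (E (4 + k)))
    (card_le' (4 + k))
  let T : (ℕ → Option (E (4 + k))) → Equiv.Perm (E (4 + k)) := fun F =>
    Θ k (Pool.Agent.R881.FreeQuat.qu (lam F) (hn F))
  have hlift : ∀ w : FreeGroup (ℕ → Option (E (4 + k))), FreeGroup.lift T w =
      Θ k (FreeGroup.lift (fun F => Pool.Agent.R881.FreeQuat.qu (lam F) (hn F)) w) := by
    intro w
    have : FreeGroup.lift T = (Θ k).comp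
        (FreeGroup.lift (fun F => Pool.Agent.R881.FreeQuat.qu (lam F) (hn F))) := by
      apply FreeGroup.ext_hom
      intro F
      rw [FreeGroup.lift_apply_of, MonoidHom.comp_apply, FreeGroup.lift_apply_of]
    rw [this]
    rfl
  obtain ⟨c, hc⟩ := Pool.Agent.R881.Coloring.exists_coloring T
    (fun F => cd F) {x | (Ψ k x).1 = 0}
    (by
      intro F x hx
      apply (Ψ k).injective
      have hx' : (Ψ k x).1 = 0 := hx
      show Ψ k (Θ k _ x) = _
      rw [Ψ_Θ, hx', mul_zero, ← hx'])
    (by
      intro w x hx hw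
      have hx' : (Ψ k x).1 ≠ 0 := hx
      rw [hlift] at hw
      have h1 := congrArg (fun y => (Ψ k y).1) hw
      simp only [Ψ_Θ] at h1
      have h2 := mul_right_cancel₀ hx' (h1.trans (one_mul _).symm)
      exact Pool.Agent.R881.FreeQuat.free lam hlam hn w (Units.ext h2))
  refine ⟨c, fun c' hcou hdist => ?_⟩
  obtain ⟨F, hFc⟩ := cd_surj hcou
  have hF : ∀ x, x ∈ cd F ↔ c' x ≠ c x := by
    intro x
    rw [hFc]; rfl
  have hc' : ∀ x, c' x = c x + Pool.Agent.R881.Coloring.ind (cd F) x := by
    intro x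
    unfold Pool.Agent.R881.Coloring.ind
    by_cases h : c' x = c x
    · rw [if_neg (fun h' => (hF x).1 h' h), h]
      exact (add_zero (c x : ZMod 2)).symm
    · rw [if_pos ((hF x).2 h)]
      have : ∀ a b : ZMod 2, a ≠ b → a = b + 1 := by decide
      exact this _ _ h
  have h1 := hdist (iso k (Pool.Agent.R881.FreeQuat.qu (lam F) (hn F)) (norm_qu _ _))
    (fun x => by
      have h2 := hc F x
      rw [← hc' , ← hc'] at h2
      exact h2)
  -- the isometry is not the identity
  have h2 : FreeGroup.of F = (1 : FreeGroup (ℕ → Option (E (4 + k)))) := by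
    apply Pool.Agent.R881.FreeQuat.free lam hlam hn
    rw [FreeGroup.lift_apply_of]
    let x : E (4 + k) := (Ψ k).symm (1, 0)
    have h3 : iso k (Pool.Agent.R881.FreeQuat.qu (lam F) (hn F)) (norm_qu _ _) x = x := by
      rw [h1]; rfl
    have h4 : Θ k (Pool.Agent.R881.FreeQuat.qu (lam F) (hn F)) x = x := h3
    have h5 := congrArg (fun y => (Ψ k y).1) h4
    simp only [Ψ_Θ] at h5
    have h6 : (Ψ k x).1 = 1 := by
      show (Ψ k ((Ψ k).symm (1, 0))).1 = 1
      rw [Equiv.apply_symm_apply]
    rw [h6, mul_one] at h5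
    exact Units.ext h5
  exact FreeGroup.of_ne_one F h2

end Pool.Agent.KS6_12.RN.Four
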