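import Pool.Agent.KS6_12.RN.Plane

/-!
Every subset of the line becomes rigid after changing at most three points.
-/

set_option autoImplicit false

namespace Pool.Agent.KS6_12.RN

open Filter Set Equiv

/-- the almost symmetries among the isometries of the line -/
def GaL (A : Set ℝ) : Set (Perm ℝ) := {g | Isometry g ∧ Al A g}

theorem GaL_mul {A : Set ℝ} {g h : Perm ℝ} (hg : g ∈ GaL A) (hh : h ∈ GaL A) : g * h ∈ GaL A :=
  ⟨hg.1.comp hh.1, al_mul hg.2 hh.2⟩

theorem GaL_inv {A : Set ℝ} {g : Perm ℝ} (hg : g ∈ GaL A) : g⁻¹ ∈ GaL A := by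
  refine ⟨fun x y => ?_, al_inv hg.2⟩
  rw [← hg.1 (g⁻¹ x) (g⁻¹ y), ais, ais]

theorem formL {g : Perm ℝ} (hg : Isometry g) : (∀ x, g x = x + g 0) ∨ ∀ x, g x = -x + g 0 := by
  let f : ℝ ≃ᵢ ℝ := ⟨g, hg⟩
  have hL : ∀ z, f.toRealLinearIsometryEquiv z = g z - g 0 := fun z =>
    IsometryEquiv.toRealLinearIsometryEquiv_apply f z
  have h1 : ∀ z, g z - g 0 = z * (g 1 - g 0) := by
    intro z
    rw [← hL, ← hL]
    have := f.toRealLinearIsometryEquiv.map_smul z 1
    rwa [smul_eq_mul, mul_one, smul_eq_mul] at this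
  have h2 : |g 1 - g 0| = 1 := by
    have := f.toRealLinearIsometryEquiv.norm_map 1
    rwa [hL, Real.norm_eq_abs, norm_one] at this
  rcases (abs_eq (by norm_num : (0 : ℝ) ≤ 1)).1 h2 with h | h
  · left; intro x
    have := h1 x
    rw [h] at this; linarith
  · right; intro x
    have := h1 x
    rw [h] at this; linarith

theorem zpow_trL {a : Perm ℝ} {α : ℝ} (ha : ∀ z, a z = z + α) (n : ℤ) : ∀ z, (a ^ n) z = z + n * α := by
  have hi : ∀ z, a⁻¹ z = z - α := by
    intro z
    apply a.injective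
    rw [ais, ha]; ring
  induction n using Int.induction_on with
  | zero => intro z; simp
  | succ n ih => intro z; rw [zpow_add_one, Perm.mul_apply, ih, ha]; push_cast; ring
  | pred n ih => intro z; rw [zpow_sub_one, Perm.mul_apply, ih, hi]; push_cast; ring

def TrL (A : Set ℝ) : Set (Perm ℝ) := {g | g ∈ GaL A ∧ ∀ z, g z = z + g 0}

theorem TrL_unc {A : Set ℝ} (hA : ¬ (GaL A).Countable) : ¬ (TrL A).Countable := by
  intro hp
  apply hA
  by_cases hr : ∃ r ∈ GaL A, ∀ x, r x = -x + r 0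
  · obtain ⟨r, hr1, hr2⟩ := hr
    refine (hp.union (hp.image fun h => r * h)).mono fun g hg => ?_
    rcases formL hg.1 with h | h
    · exact Or.inl ⟨hg, h⟩
    · right
      have hinv : ∀ x, r⁻¹ x = -x + r 0 := by
        intro x
        apply r.injective
        rw [ais, hr2]; ring
      have h3 : r⁻¹ * g ∈ TrL A := by
        refine ⟨GaL_mul (GaL_inv hr1) hg, fun z => ?_⟩
        rw [Perm.mul_apply, Perm.mul_apply, hinv, hinv, h]; ring
      exact (Set.mem_image _ _ _).2 ⟨r⁻¹ * g, h3, by simp⟩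
  · push Not at hr
    refine hp.mono fun g hg => ?_
    rcases formL hg.1 with h | h
    · exact ⟨hg, h⟩
    · obtain ⟨x, hx⟩ := hr g hg
      exact absurd (h x) hx

theorem lineC {A : Set ℝ} (hA : ¬ (GaL A).Countable) :
    ∃ C : Set ℝ, {x | ¬ (x ∈ C ↔ x ∈ A)}.Finite ∧ ∀ g ∈ GaL A, ∀ x, g x ∈ C ↔ x ∈ C := by
  have hT := TrL_unc hA
  obtain ⟨a, ha, ha0⟩ : ∃ a ∈ TrL A, a 0 ≠ 0 := by
    by_contra hcon
    push Not at hcon
    apply hT
    refine (Set.countable_singleton (1 : Perm ℝ)).mono fun g hg => ?_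
    rw [mem_singleton_iff]
    ext z
    rw [hg.2 z, hcon g hg, add_zero]; rfl
  set α := a 0 with hα
  have hc : {z : ℝ | ∃ n m : ℤ, m ≠ 0 ∧ m * z = n * α}.Countable := by
    refine (Set.countable_range fun p : ℤ × ℤ => (p.1 : ℝ) * α / p.2).mono ?_
    rintro z ⟨n, m, hm, h⟩
    refine ⟨(n, m), ?_⟩
    have hm' : (m : ℝ) ≠ 0 := by exact_mod_cast hm
    simp only
    rw [← h]
    field_simp
  obtain ⟨b, hb, hb0⟩ : ∃ b ∈ TrL A, b 0 ∉ {z : ℝ | ∃ n m : ℤ, m ≠ 0 ∧ m * z = n * α} := by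
    by_contra hcon
    push Not at hcon
    apply hT
    have hinj : Set.InjOn (fun g : Perm ℝ => g 0) (TrL A) := by
      intro g hg g' hg' h
      ext z
      simp only at h
      rw [hg.2 z, hg'.2 z, h]
    exact Set.MapsTo.countable_of_injOn (fun g hg => hcon g hg) hinj hc
  set β := b 0 with hβ
  have hXo : ∀ x, Xo a b x := by
    intro x p q h
    simp only [zpow_trL ha.2, zpow_trL hb.2, ← hα, ← hβ] at h
    have h1 : ((p.2 - q.2 : ℤ) : ℝ) * β = ((q.1 - p.1 : ℤ) : ℝ) * α := by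
      push_cast
      linear_combination h
    have h2 : p.2 - q.2 = 0 := by
      by_contra hne
      exact hb0 ⟨_, _, hne, h1⟩
    rw [h2] at h1
    have h3 : ((q.1 - p.1 : ℤ) : ℝ) = 0 := by
      have : ((q.1 - p.1 : ℤ) : ℝ) * α = 0 := by rw [← h1]; simp
      exact (mul_eq_zero.1 this).resolve_right ha0
    have h4 : q.1 - p.1 = 0 := by exact_mod_cast h3
    exact Prod.ext (by omega) (by omega)
  have hcomm : ∀ {c : Perm ℝ} {γ : ℝ}, (∀ z, c z = z + γ) → Commute a c := by
    intro c γ hcγ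
    show a * c = c * a
    ext z
    rw [Perm.mul_apply, Perm.mul_apply, hcγ, hcγ, ha.2, ha.2 z]
    ring
  refine rigid ha.1.2 hb.1.2 (hcomm hb.2) (GaL A) (fun g hg => hg.2) (fun g hg => ?_) (fun _ _ x _ => hXo _)
    (fun _ _ x h => absurd (hXo x) h)
  rcases formL hg.1 with h | h
  · refine hcomm (γ := α) fun z => ?_
    apply g.injective
    rw [Perm.mul_apply, Perm.mul_apply, ais, ha.2, h, h (z + α)]
    ring
  · refine hcomm (γ := -α) fun z => ?_
    apply g.injective
    rw [Perm.mul_apply, Perm.mul_apply, ais, ha.2, h, h (z + -α)]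
    ring

/-- Every subset of the line becomes rigid after changing at most three points. -/
theorem line (A : Set ℝ) : ∃ T : Set ℝ, T.encard ≤ 3 ∧
    ∀ g : Perm ℝ, Isometry g → (∀ x, g x ∈ Fl A T ↔ x ∈ Fl A T) → g = 1 := by
  by_cases hc : (GaL A).Countable
  · obtain ⟨s, hs⟩ := countable_gen (A := A) hc id Function.injective_id (fun g hg h => by
      rcases formL hg.1 with h1 | h1
      · refine Set.finite_empty.subset fun t ht => ?_
        have ht' : g t = t := ht
        rw [h1] at ht'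
        apply h
        ext z
        rw [h1, show g 0 = 0 by linarith]; simp
      · refine (Set.finite_singleton (g 0 / 2)).subset fun t ht => ?_
        have ht' : g t = t := ht
        rw [h1] at ht'
        rw [mem_singleton_iff]; linarith)
    refine ⟨{s}, by rw [encard_singleton]; norm_num, fun g hg h => hs g ⟨hg, al_of_fl (finite_singleton s) h⟩ h⟩
  obtain ⟨C, hS, hC⟩ := lineC hc
  obtain ⟨R, hR, hSR⟩ : ∃ R : ℝ, 0 < R ∧ ∀ x : ℝ, ¬ (x ∈ C ↔ x ∈ A) → |x| ≤ R := by
    obtain ⟨R, hR⟩ := hS.isBounded.exists_norm_le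
    refine ⟨max R 1, by positivity, fun x hx => (hR x hx).trans (le_max_left _ _)⟩
  set T : Set ℝ := {-(3 * R), 10 * R, 11 * R} with hT
  have hTf : T.Finite := by rw [hT]; exact Set.toFinite _
  have hTm : ∀ x, x ∈ T ↔ x = -(3 * R) ∨ x = 10 * R ∨ x = 11 * R := by
    intro x; rw [hT]; simp
  have hTS : ∀ x ∈ T, (x ∈ C ↔ x ∈ A) := by
    intro x hx
    by_contra hcon
    have h1 := abs_le.1 (hSR x hcon)
    rcases (hTm x).1 hx with h | h | h <;> rw [h] at h1 <;> linarith [h1.1, h1.2]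
  refine ⟨T, ?_, fun g hg h => ?_⟩
  · rw [hT]
    refine (encard_insert_le _ _).trans ?_
    have := encard_insert_le ({11 * R} : Set ℝ) (10 * R)
    rw [encard_singleton] at this
    calc _ ≤ (1 + 1 : ℕ∞) + 1 := by gcongr
      _ = 3 := by norm_num
  · have hgG : g ∈ GaL A := ⟨hg, al_of_fl hTf h⟩
    have hF : ∀ x, ¬ ((¬ (x ∈ C ↔ x ∈ A)) ↔ x ∈ T) → (|g x| ≤ R ∨ g x ∈ T) := by
      intro x hx
      have h1 := hC g hgG x
      have h2 := h x
      unfold Fl at h2
      simp only [mem_ofPred_eq] at h2 hx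
      by_cases hgT : g x ∈ T
      · exact Or.inr hgT
      · left
        apply hSR
        tauto
    have hin : ∀ x ∈ T, |g x| ≤ R ∨ g x = -(3 * R) ∨ g x = 10 * R ∨ g x = 11 * R := by
      intro x hx
      rcases hF x (by have := hTS x hx; tauto) with h1 | h1
      · exact Or.inl h1
      · exact Or.inr ((hTm _).1 h1)
    have i1 := hin (-(3 * R)) ((hTm _).2 (Or.inl rfl))
    have i2 := hin (10 * R) ((hTm _).2 (Or.inr (Or.inl rfl)))
    have i3 := hin (11 * R) ((hTm _).2 (Or.inr (Or.inr rfl)))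
    simp only [abs_le] at i1 i2 i3
    rcases formL hg with h1 | h1
    · rw [h1] at i1 i3
      have h0 : g 0 = 0 := by
        rcases i1 with i1 | i1 | i1 | i1 <;> rcases i3 with i3 | i3 | i3 | i3 <;> first | linarith | (exfalso; linarith [i1.1, i3.2]) | (exfalso; linarith [i3.1, i3.2]) | (exfalso; linarith [i1.1, i1.2])
      ext z
      rw [h1, h0]; simp
    · exfalso
      rw [h1] at i1 i2 i3
      rcases i1 with i1 | i1 | i1 | i1 <;> rcases i3 with i3 | i3 | i3 | i3 <;> rcases i2 with i2 | i2 | i2 | i2 <;>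
        first | linarith | linarith [i1.1, i3.2] | linarith [i3.1, i1.2] | linarith [i3.1, i3.2] | linarith [i1.1, i1.2] | linarith [i2.1, i2.2]

end Pool.Agent.KS6_12.RN
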