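import Pool.Agent.KS6_12.RN.Abs

/-!
Every subset of the plane becomes rigid after changing at most three points.
-/

set_option autoImplicit false

namespace Pool.Agent.KS6_12.RN

open Filter Set Equiv Complex

/-- symmetric difference -/
def Fl {X : Type} (A T : Set X) : Set X := {x | ¬ (x ∈ A ↔ x ∈ T)}

theorem al_of_fl {X : Type} {A T : Set X} (hT : T.Finite) {g : Perm X} (h : ∀ x, g x ∈ Fl A T ↔ x ∈ Fl A T) :
    Al A g := by
  refine ((hT.preimage g.injective.injOn).union hT).subset fun x hx => ?_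
  by_contra hn
  simp only [mem_union, mem_preimage, not_or] at hn
  have h1 := h x
  unfold Fl at h1
  unfold Df at hx
  simp only [mem_ofPred_eq] at h1 hx
  tauto

/-- the almost symmetries among the isometries -/
def Ga (A : Set ℂ) : Set (Perm ℂ) := {g | Isometry g ∧ Al A g}

theorem Ga_mul {A : Set ℂ} {g h : Perm ℂ} (hg : g ∈ Ga A) (hh : h ∈ Ga A) : g * h ∈ Ga A :=
  ⟨hg.1.comp hh.1, al_mul hg.2 hh.2⟩

theorem Ga_inv {A : Set ℂ} {g : Perm ℂ} (hg : g ∈ Ga A) : g⁻¹ ∈ Ga A := by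
  refine ⟨fun x y => ?_, al_inv hg.2⟩
  rw [← hg.1 (g⁻¹ x) (g⁻¹ y), ais, ais]

/-! ### the form of the isometries -/

def OrP (g : Perm ℂ) : Prop := ∃ u w : ℂ, ‖u‖ = 1 ∧ ∀ z, g z = u * z + w

def OrR (g : Perm ℂ) : Prop := ∃ u w : ℂ, ‖u‖ = 1 ∧ ∀ z, g z = u * (starRingEnd ℂ) z + w

theorem form {g : Perm ℂ} (hg : Isometry g) : OrP g ∨ OrR g := by
  let f : ℂ ≃ᵢ ℂ := ⟨g, hg⟩
  have hL : ∀ z, f.toRealLinearIsometryEquiv z = g z - g 0 := fun z =>
    IsometryEquiv.toRealLinearIsometryEquiv_apply f z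
  obtain ⟨a, h | h⟩ := linear_isometry_complex f.toRealLinearIsometryEquiv
  · left
    refine ⟨a, g 0, Circle.norm_coe a, fun z => ?_⟩
    have := hL z
    rw [h, rotation_apply] at this
    rw [this]; ring
  · right
    refine ⟨a, g 0, Circle.norm_coe a, fun z => ?_⟩
    have := hL z
    rw [h, LinearIsometryEquiv.trans_apply, rotation_apply, conjLIE_apply] at this
    rw [this]; ring

theorem P_mul_P {g h : Perm ℂ} (hg : OrP g) (hh : OrP h) : OrP (g * h) := by
  obtain ⟨u, w, hu, h1⟩ := hg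
  obtain ⟨u', w', hu', h2⟩ := hh
  refine ⟨u * u', u * w' + w, by rw [norm_mul, hu, hu', one_mul], fun z => ?_⟩
  rw [Perm.mul_apply, h1, h2]; ring

theorem R_mul_R {g h : Perm ℂ} (hg : OrR g) (hh : OrR h) : OrP (g * h) := by
  obtain ⟨u, w, hu, h1⟩ := hg
  obtain ⟨u', w', hu', h2⟩ := hh
  refine ⟨u * (starRingEnd ℂ) u', u * (starRingEnd ℂ) w' + w, ?_, fun z => ?_⟩
  · rw [norm_mul, hu, one_mul, RCLike.norm_conj, hu']
  · rw [Perm.mul_apply, h1, h2, map_add, map_mul, Complex.conj_conj]; ring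

theorem P_mul_R {g h : Perm ℂ} (hg : OrP g) (hh : OrR h) : OrR (g * h) := by
  obtain ⟨u, w, hu, h1⟩ := hg
  obtain ⟨u', w', hu', h2⟩ := hh
  refine ⟨u * u', u * w' + w, by rw [norm_mul, hu, hu', one_mul], fun z => ?_⟩
  rw [Perm.mul_apply, h1, h2]; ring

theorem P_inv {g : Perm ℂ} (hg : OrP g) : OrP g⁻¹ := by
  obtain ⟨u, w, hu, h1⟩ := hg
  have hu0 : u ≠ 0 := fun h => by rw [h] at hu; simp at hu
  refine ⟨u⁻¹, -(u⁻¹ * w), by rw [norm_inv, hu, inv_one], fun z => ?_⟩
  apply g.injective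
  rw [ais, h1]
  field_simp
  ring

theorem R_inv {g : Perm ℂ} (hg : OrR g) : OrR g⁻¹ := by
  obtain ⟨u, w, hu, h1⟩ := hg
  have hu0 : u ≠ 0 := fun h => by rw [h] at hu; simp at hu
  refine ⟨(starRingEnd ℂ) u⁻¹, -((starRingEnd ℂ) (u⁻¹ * w)), ?_, fun z => ?_⟩
  · rw [RCLike.norm_conj, norm_inv, hu, inv_one]
  apply g.injective
  rw [ais, h1, map_add, map_mul, map_neg, Complex.conj_conj, Complex.conj_conj, Complex.conj_conj]
  field_simp
  ring

/-- a nontrivial isometry fixes finitely many points of the parabola -/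
theorem fix_fin {g : Perm ℂ} (hg : Isometry g) (h1 : g ≠ 1) : {t : ℝ | g (t + t ^ 2 * I) = t + t ^ 2 * I}.Finite := by
  have key : ∀ a b c : ℂ, ¬ (a = 0 ∧ b = 0 ∧ c = 0) → {t : ℝ | a + b * t + c * t ^ 2 = 0}.Finite := by
    intro a b c habc
    set P : Polynomial ℂ := Polynomial.C a + Polynomial.C b * Polynomial.X + Polynomial.C c * Polynomial.X ^ 2 with hP
    have hP0 : P ≠ 0 := by
      intro h
      apply habc
      have e0 : P.coeff 0 = a := by simp [hP]
      have e1 : P.coeff 1 = b := by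
        simp [hP, Polynomial.coeff_C, Polynomial.coeff_X_pow]
      have e2 : P.coeff 2 = c := by
        simp [hP, Polynomial.coeff_X_pow]
      rw [h] at e0 e1 e2
      simp at e0 e1 e2
      exact ⟨e0.symm, e1.symm, e2.symm⟩
    have h2 : {z : ℂ | P.IsRoot z}.Finite := Polynomial.finite_setOfPred_isRoot hP0
    refine (h2.preimage (f := fun t : ℝ => (t : ℂ)) Complex.ofReal_injective.injOn).subset fun t ht => ?_
    simp only [mem_ofPred_eq] at ht
    show P.IsRoot (t : ℂ)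
    rw [Polynomial.IsRoot, hP]
    simp only [Polynomial.eval_add, Polynomial.eval_mul, Polynomial.eval_C, Polynomial.eval_X, Polynomial.eval_pow]
    exact ht
  rcases form hg with ⟨u, w, hu, h⟩ | ⟨u, w, hu, h⟩
  · refine (key w (u - 1) ((u - 1) * I) ?_).subset fun t ht => ?_
    · rintro ⟨hw, hu1, -⟩
      apply h1
      ext z
      rw [h, hw, sub_eq_zero.1 hu1]
      simp
    · simp only [mem_ofPred_eq] at ht ⊢
      rw [h] at ht
      linear_combination ht
  · refine (key w (u - 1) (-((u + 1) * I)) ?_).subset fun t ht => ?_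
    · rintro ⟨hw, hu1, hu2⟩
      have e1 : u = 1 := sub_eq_zero.1 hu1
      rw [e1] at hu2
      have := congrArg Complex.im hu2
      norm_num at this
    · simp only [mem_ofPred_eq] at ht ⊢
      rw [h] at ht
      simp only [map_add, map_mul, map_pow, Complex.conj_ofReal, Complex.conj_I] at ht
      linear_combination ht

/-- few almost symmetries: one point is enough -/
theorem countable_gen {X : Type} {A : Set X} {G : Set (Perm X)} (hA : G.Countable) (p : ℝ → X)
    (hp : Function.Injective p) (hfix : ∀ g ∈ G, g ≠ 1 → {t : ℝ | g (p t) = p t}.Finite) :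
    ∃ s : X, ∀ g ∈ G, (∀ x, g x ∈ Fl A {s} ↔ x ∈ Fl A {s}) → g = 1 := by
  have h1 : ∀ g ∈ G \ {1}, {t : ℝ | ∀ x, g x ∈ Fl A {p t} ↔ x ∈ Fl A {p t}}.Finite := by
    rintro g ⟨hg, hg1⟩
    have hfix := hfix g hg (fun h => hg1 (by rw [h]; rfl))
    have h2 : ∀ t t' : ℝ, t ∈ {t : ℝ | ∀ x, g x ∈ Fl A {p t} ↔ x ∈ Fl A {p t}} →
        t' ∈ {t : ℝ | ∀ x, g x ∈ Fl A {p t} ↔ x ∈ Fl A {p t}} → t ≠ t' → g (p t) = p t ∨ g (p t) = p t' := by
      intro t t' ht ht' hne
      have e1 := ht (p t)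
      have e2 := ht' (p t)
      unfold Fl at e1 e2
      simp only [mem_ofPred_eq, mem_singleton_iff] at e1 e2
      have e3 : p t ≠ p t' := fun h => hne (hp h)
      by_contra hcon
      push Not at hcon
      tauto
    by_cases h3 : ∃ t0 ∈ {t : ℝ | ∀ x, g x ∈ Fl A {p t} ↔ x ∈ Fl A {p t}}, g (p t0) ≠ p t0
    · obtain ⟨t0, ht0, hn0⟩ := h3
      have h4 : {t : ℝ | p t = g (p t0)}.Finite := by
        apply Set.Subsingleton.finite
        intro t ht t' ht'
        exact hp (ht.trans ht'.symm)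
      refine ((Set.finite_singleton t0).union h4).subset fun t ht => ?_
      by_cases he : t = t0
      · exact Or.inl he
      · right
        rcases h2 t0 t ht0 ht (Ne.symm he) with h | h
        · exact absurd h hn0
        · exact h.symm
    · push Not at h3
      exact hfix.subset fun t ht => h3 t ht
  have h2 : (⋃ g ∈ G \ {1}, {t : ℝ | ∀ x, g x ∈ Fl A {p t} ↔ x ∈ Fl A {p t}}).Countable :=
    (hA.mono sdiff_subset).biUnion fun g hg => (h1 g hg).countable
  obtain ⟨t, ht⟩ : ∃ t : ℝ, t ∉ ⋃ g ∈ G \ {1}, {t : ℝ | ∀ x, g x ∈ Fl A {p t} ↔ x ∈ Fl A {p t}} := by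
    by_contra hcon
    push Not at hcon
    exact Set.not_countable_univ (h2.mono fun t _ => hcon t)
  refine ⟨p t, fun g hg h => ?_⟩
  by_contra hne
  exact ht (mem_biUnion (show g ∈ G \ {1} from ⟨hg, hne⟩) h)

theorem countable_case {A : Set ℂ} (hA : (Ga A).Countable) :
    ∃ s : ℂ, ∀ g ∈ Ga A, (∀ x, g x ∈ Fl A {s} ↔ x ∈ Fl A {s}) → g = 1 := by
  refine countable_gen hA (fun t => t + t ^ 2 * I) ?_ fun g hg h => fix_fin hg.1 h
  intro t t' h
  have := congrArg Complex.re h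
  simpa [pow_two] using this

/-! ### powers -/

theorem zpow_tr {a : Perm ℂ} {α : ℂ} (ha : ∀ z, a z = z + α) (n : ℤ) : ∀ z, (a ^ n) z = z + n * α := by
  have hi : ∀ z, a⁻¹ z = z - α := by
    intro z
    apply a.injective
    rw [ais, ha]; ring
  induction n using Int.induction_on with
  | zero => intro z; simp
  | succ n ih => intro z; rw [zpow_add_one, Perm.mul_apply, ih, ha]; push_cast; ring
  | pred n ih => intro z; rw [zpow_sub_one, Perm.mul_apply, ih, hi]; push_cast; ring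

theorem zpow_rot {a : Perm ℂ} {u o : ℂ} (hu : u ≠ 0) (ha : ∀ z, a z = u * (z - o) + o) (n : ℤ) :
    ∀ z, (a ^ n) z = u ^ n * (z - o) + o := by
  have hi : ∀ z, a⁻¹ z = u⁻¹ * (z - o) + o := by
    intro z
    apply a.injective
    rw [ais, ha]
    field_simp
    ring
  induction n using Int.induction_on with
  | zero => intro z; simp
  | succ n ih => intro z; rw [zpow_add_one, Perm.mul_apply, ih, ha, zpow_add_one₀ hu]; ring
  | pred n ih => intro z; rw [zpow_sub_one, Perm.mul_apply, ih, hi, zpow_sub_one₀ hu]; ring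

/-! ### many almost symmetries -/

/-- the translations among the almost symmetries -/
def Tr (A : Set ℂ) : Set (Perm ℂ) := {g | g ∈ Ga A ∧ ∀ z, g z = z + g 0}

/-- the direct almost symmetries -/
def Gp (A : Set ℂ) : Set (Perm ℂ) := {g | g ∈ Ga A ∧ OrP g}

theorem Gp_unc {A : Set ℂ} (hA : ¬ (Ga A).Countable) : ¬ (Gp A).Countable := by
  intro hp
  apply hA
  by_cases hr : ∃ r ∈ Ga A, OrR r
  · obtain ⟨r, hr1, hr2⟩ := hr
    refine (hp.union (hp.image fun h => r * h)).mono fun g hg => ?_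
    rcases form hg.1 with h | h
    · exact Or.inl ⟨hg, h⟩
    · right
      have h3 : r⁻¹ * g ∈ Gp A := ⟨Ga_mul (Ga_inv hr1) hg, R_mul_R (R_inv hr2) h⟩
      exact (Set.mem_image _ _ _).2 ⟨r⁻¹ * g, h3, by simp⟩
  · push Not at hr
    refine hp.mono fun g hg => ?_
    rcases form hg.1 with h | h
    · exact ⟨hg, h⟩
    · exact absurd h (hr g hg)

theorem tr_conj {g a : Perm ℂ} {α : ℂ} (hg : Isometry g) (ha : ∀ z, a z = z + α) :
    ∃ γ : ℂ, ∀ z, (g⁻¹ * a * g) z = z + γ := by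
  rcases form hg with ⟨u, w, hu, h⟩ | ⟨u, w, hu, h⟩
  · have hu0 : u ≠ 0 := fun h => by rw [h] at hu; simp at hu
    refine ⟨α / u, fun z => ?_⟩
    apply g.injective
    rw [Perm.mul_apply, Perm.mul_apply, ais, ha, h, h]
    field_simp
    ring
  · have hu0 : u ≠ 0 := fun h => by rw [h] at hu; simp at hu
    refine ⟨(starRingEnd ℂ) (α / u), fun z => ?_⟩
    apply g.injective
    rw [Perm.mul_apply, Perm.mul_apply, ais, ha, h, h, map_add, Complex.conj_conj]
    field_simp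
    ring

theorem tr_case {A : Set ℂ} (hT : ¬ (Tr A).Countable) :
    ∃ C : Set ℂ, {x | ¬ (x ∈ C ↔ x ∈ A)}.Finite ∧ ∀ g ∈ Ga A, ∀ x, g x ∈ C ↔ x ∈ C := by
  obtain ⟨a, ha, ha0⟩ : ∃ a ∈ Tr A, a 0 ≠ 0 := by
    by_contra hcon
    push Not at hcon
    apply hT
    refine (Set.countable_singleton (1 : Perm ℂ)).mono fun g hg => ?_
    rw [mem_singleton_iff]
    ext z
    rw [hg.2 z, hcon g hg, add_zero]; rfl
  set α := a 0 with hα
  have hc : {z : ℂ | ∃ n m : ℤ, m ≠ 0 ∧ m * z = n * α}.Countable := by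
    refine (Set.countable_range fun p : ℤ × ℤ => (p.1 : ℂ) * α / p.2).mono ?_
    rintro z ⟨n, m, hm, h⟩
    refine ⟨(n, m), ?_⟩
    have hm' : (m : ℂ) ≠ 0 := by exact_mod_cast hm
    simp only
    rw [← h]
    field_simp
  obtain ⟨b, hb, hb0⟩ : ∃ b ∈ Tr A, b 0 ∉ {z : ℂ | ∃ n m : ℤ, m ≠ 0 ∧ m * z = n * α} := by
    by_contra hcon
    push Not at hcon
    apply hT
    have hinj : Set.InjOn (fun g : Perm ℂ => g 0) (Tr A) := by
      intro g hg g' hg' h
      ext z
      simp only at h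
      rw [hg.2 z, hg'.2 z, h]
    exact Set.MapsTo.countable_of_injOn (fun g hg => hcon g hg) hinj hc
  set β := b 0 with hβ
  have hXo : ∀ x, Xo a b x := by
    intro x p q h
    simp only [zpow_tr ha.2, zpow_tr hb.2, ← hα, ← hβ] at h
    have h1 : ((p.2 - q.2 : ℤ) : ℂ) * β = ((q.1 - p.1 : ℤ) : ℂ) * α := by
      push_cast
      linear_combination h
    have h2 : p.2 - q.2 = 0 := by
      by_contra hne
      exact hb0 ⟨_, _, hne, h1⟩
    rw [h2] at h1
    have h3 : ((q.1 - p.1 : ℤ) : ℂ) = 0 := by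
      have : ((q.1 - p.1 : ℤ) : ℂ) * α = 0 := by rw [← h1]; simp
      exact (mul_eq_zero.1 this).resolve_right ha0
    have h4 : q.1 - p.1 = 0 := by exact_mod_cast h3
    exact Prod.ext (by omega) (by omega)
  have hcomm : ∀ {c : Perm ℂ} {γ : ℂ}, (∀ z, c z = z + γ) → Commute a c := by
    intro c γ hcγ
    show a * c = c * a
    ext z
    rw [Perm.mul_apply, Perm.mul_apply, hcγ, hcγ, ha.2, ha.2 z]
    ring
  refine rigid ha.1.2 hb.1.2 (hcomm hb.2) (Ga A) (fun g hg => hg.2) (fun g hg => ?_) (fun _ _ x _ => hXo _)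
    (fun _ _ x h => absurd (hXo x) h)
  obtain ⟨γ, hγ⟩ := tr_conj hg.1 ha.2
  exact hcomm hγ

theorem rot_case {A : Set ℂ} (hT : (Tr A).Countable) (hG : ¬ (Gp A).Countable) :
    ∃ C : Set ℂ, {x | ¬ (x ∈ C ↔ x ∈ A)}.Finite ∧ ∀ g ∈ Ga A, ∀ x, g x ∈ C ↔ x ∈ C := by
  classical
  -- the linear part
  let L : Perm ℂ → ℂ := fun g => g 1 - g 0
  have hL : ∀ g ∈ Gp A, ∀ z, g z = L g * z + g 0 := by
    rintro g ⟨-, u, w, -, h⟩ z
    simp only [L, h]
    ring
  have hL0 : ∀ g ∈ Gp A, L g ≠ 0 := by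
    rintro g - h
    have : g 1 = g 0 := sub_eq_zero.1 h
    exact one_ne_zero (g.injective this)
  have hLT : ∀ g ∈ Gp A, L g = 1 → g ∈ Tr A := by
    intro g hg h
    refine ⟨hg.1, fun z => ?_⟩
    rw [hL g hg z, h, one_mul]
  have hmul : ∀ g ∈ Gp A, ∀ h ∈ Gp A, g * h ∈ Gp A := fun g hg h hh => ⟨Ga_mul hg.1 hh.1, P_mul_P hg.2 hh.2⟩
  have hinv : ∀ g ∈ Gp A, g⁻¹ ∈ Gp A := fun g hg => ⟨Ga_inv hg.1, P_inv hg.2⟩
  have hLmul : ∀ g ∈ Gp A, ∀ h ∈ Gp A, L (g * h) = L g * L h := by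
    intro g hg h hh
    show (g * h) 1 - (g * h) 0 = _
    rw [Perm.mul_apply, Perm.mul_apply, hL g hg (h 1), hL g hg (h 0)]
    show _ = L g * (h 1 - h 0)
    ring
  have hLinv : ∀ g ∈ Gp A, L g⁻¹ * L g = 1 := by
    intro g hg
    rw [← hLmul _ (hinv g hg) g hg, inv_mul_cancel]
    simp [L]
  -- the image is uncountable
  have hU : ¬ (L '' Gp A).Countable := by
    intro hc
    apply hG
    have h1 : ∀ u ∈ L '' Gp A, {g ∈ Gp A | L g = u}.Countable := by
      rintro u ⟨g0, hg0, rfl⟩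
      refine (hT.image fun τ => τ * g0).mono ?_
      rintro g ⟨hg, he⟩
      refine ⟨g * g0⁻¹, hLT _ (hmul g hg _ (hinv g0 hg0)) ?_, by simp⟩
      rw [hLmul g hg _ (hinv g0 hg0), he, mul_comm]
      exact hLinv g0 hg0
    refine (hc.biUnion h1).mono fun g hg => ?_
    have h2 : L g ∈ L '' Gp A := Set.mem_image_of_mem _ hg
    have h3 : g ∈ {g ∈ Gp A | L g = L g} := ⟨hg, rfl⟩
    exact Set.mem_biUnion h2 (show g ∈ {g' ∈ Gp A | L g' = L g} from ⟨hg, rfl⟩)
  -- there are no translations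
  have hT1 : ∀ τ ∈ Tr A, τ = 1 := by
    intro v hv
    by_contra hne
    have hv0 : v 0 ≠ 0 := by
      intro h
      apply hne
      ext z
      rw [hv.2 z, h, add_zero]; rfl
    apply hU
    refine (hT.image fun τ => τ 0 / v 0).mono ?_
    rintro u ⟨g, hg, rfl⟩
    have h1 : ∀ z, (g * v * g⁻¹) z = z + L g * v 0 := by
      intro z
      rw [Perm.mul_apply, Perm.mul_apply, hv.2, hL g hg]
      have := hL g hg (g⁻¹ z)
      rw [ais] at this
      linear_combination -this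
    refine ⟨g * v * g⁻¹, ⟨Ga_mul (Ga_mul hg.1 hv.1) (Ga_inv hg.1), fun z => ?_⟩, ?_⟩
    · rw [h1, h1]; ring
    · simp only [h1]
      field_simp
      ring
  -- the generators
  have hroots : ∀ c : ℂ, ∀ k : ℕ, 0 < k → {z : ℂ | z ^ k = c}.Finite := by
    intro c k hk
    have := (Polynomial.nthRoots k c).toFinset.finite_toSet
    refine this.subset fun z hz => ?_
    rw [Finset.mem_coe, Multiset.mem_toFinset, Polynomial.mem_nthRoots hk]
    exact hz
  obtain ⟨a, ha, ha1⟩ : ∃ a ∈ Gp A, ∀ k : ℕ, 0 < k → L a ^ k ≠ 1 := by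
    by_contra hcon
    push Not at hcon
    apply hU
    refine (Set.countable_iUnion fun k : ℕ => Set.countable_iUnion fun hk : 0 < k =>
      (hroots 1 k hk).countable).mono ?_
    rintro u ⟨g, hg, rfl⟩
    obtain ⟨k, hk, h⟩ := hcon g hg
    exact mem_iUnion.2 ⟨k, mem_iUnion.2 ⟨hk, h⟩⟩
  obtain ⟨b, hb, hb1⟩ : ∃ b ∈ Gp A, ∀ k : ℕ, 0 < k → ∀ n : ℤ, L b ^ k ≠ L a ^ n := by
    by_contra hcon
    push Not at hcon
    apply hU
    refine (Set.countable_iUnion fun n : ℤ => Set.countable_iUnion fun k : ℕ => Set.countable_iUnion fun hk : 0 < k =>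
      (hroots (L a ^ n) k hk).countable).mono ?_
    rintro u ⟨g, hg, rfl⟩
    obtain ⟨k, hk, n, h⟩ := hcon g hg
    exact mem_iUnion.2 ⟨n, mem_iUnion.2 ⟨k, mem_iUnion.2 ⟨hk, h⟩⟩⟩
  have hu1 : 1 - L a ≠ 0 := by
    intro h
    have := ha1 1 one_pos
    rw [pow_one] at this
    exact this (sub_eq_zero.1 h).symm
  set o := a 0 / (1 - L a) with ho
  have ho' : o * (1 - L a) = a 0 := div_mul_cancel₀ _ hu1
  have hao : ∀ z, a z = L a * (z - o) + o := by
    intro z
    rw [hL a ha z, ← ho']; ring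
  have hafix : ∀ z, a z = z → z = o := by
    intro z hz
    rw [hao] at hz
    have : (1 - L a) * (z - o) = 0 := by linear_combination -hz
    exact sub_eq_zero.1 ((mul_eq_zero.1 this).resolve_left hu1)
  have hcomm : ∀ g ∈ Gp A, Commute a g := by
    intro g hg
    have h1 : a * g * (a⁻¹ * g⁻¹) ∈ Gp A := hmul _ (hmul a ha g hg) _ (hmul _ (hinv a ha) _ (hinv g hg))
    have h2 : L (a * g * (a⁻¹ * g⁻¹)) = 1 := by
      rw [hLmul _ (hmul a ha g hg) _ (hmul _ (hinv a ha) _ (hinv g hg)), hLmul a ha g hg,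
        hLmul _ (hinv a ha) _ (hinv g hg)]
      have e1 := hLinv a ha
      have e2 := hLinv g hg
      linear_combination (L g * L g⁻¹) * e1 + e2
    have h3 := hT1 _ (hLT _ h1 h2)
    show a * g = g * a
    have : a * g * (a⁻¹ * g⁻¹) * (g * a) = 1 * (g * a) := by rw [h3]
    simpa [mul_assoc] using this
  have hfixo : ∀ g ∈ Gp A, g o = o := by
    intro g hg
    apply hafix
    have := congrArg (fun f : Perm ℂ => f o) (hcomm g hg).eq
    simp only [Perm.mul_apply] at this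
    rw [this, hao o]
    simp
  have hconj : ∀ g ∈ Ga A, g⁻¹ * a * g ∈ Gp A := by
    intro g hg
    refine ⟨Ga_mul (Ga_mul (Ga_inv hg) ha.1) hg, ?_⟩
    rcases form hg.1 with h | h
    · exact P_mul_P (P_mul_P (P_inv h) ha.2) h
    · rw [mul_assoc]
      exact R_mul_R (R_inv h) (P_mul_R ha.2 h)
  have hgo : ∀ g ∈ Ga A, g o = o := by
    intro g hg
    apply hafix
    have h1 := hfixo _ (hconj g hg)
    rw [Perm.mul_apply, Perm.mul_apply] at h1
    have h2 := congrArg g h1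
    rwa [ais] at h2
  have hbo : ∀ z, b z = L b * (z - o) + o := by
    intro z
    have h1 := hL b hb o
    rw [hfixo b hb] at h1
    rw [hL b hb z]
    linear_combination -h1
  have hind : ∀ n m : ℤ, L a ^ n * L b ^ m = 1 → n = 0 ∧ m = 0 := by
    intro n m h
    have hLa := hL0 a ha
    have hLb := hL0 b hb
    have hm : m = 0 := by
      by_contra hm
      rcases lt_or_gt_of_ne hm with h' | h'
      · apply hb1 (-m).toNat (by omega) n
        have e : ((-m).toNat : ℤ) = -m := Int.toNat_of_nonneg (by omega)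
        rw [← zpow_natCast, e, zpow_neg]
        exact (eq_inv_of_mul_eq_one_left h).symm
      · apply hb1 m.toNat (by omega) (-n)
        have e : (m.toNat : ℤ) = m := Int.toNat_of_nonneg (by omega)
        rw [← zpow_natCast, e, zpow_neg]
        exact eq_inv_of_mul_eq_one_right h
    refine ⟨?_, hm⟩
    rw [hm, zpow_zero, mul_one] at h
    by_contra hn
    rcases lt_or_gt_of_ne hn with h' | h'
    · apply ha1 (-n).toNat (by omega)
      have e : ((-n).toNat : ℤ) = -n := Int.toNat_of_nonneg (by omega)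
      rw [← zpow_natCast, e, zpow_neg, h, inv_one]
    · apply ha1 n.toNat (by omega)
      have e : (n.toNat : ℤ) = n := Int.toNat_of_nonneg (by omega)
      rw [← zpow_natCast, e, h]
  have hXo : ∀ x, Xo a b x ↔ x ≠ o := by
    intro x
    constructor
    · rintro h rfl
      have := @h (0, 0) (1, 0) (by
        simp only [zpow_rot (hL0 a ha) hao, zpow_rot (hL0 b hb) hbo]
        simp)
      simp at this
    · intro hx p q h
      simp only [zpow_rot (hL0 a ha) hao, zpow_rot (hL0 b hb) hbo] at h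
      have hLa := hL0 a ha
      have hLb := hL0 b hb
      have hx' : x - o ≠ 0 := sub_ne_zero.2 hx
      have h1 : L a ^ p.1 * L b ^ p.2 = L a ^ q.1 * L b ^ q.2 := by
        apply mul_right_cancel₀ hx'
        linear_combination h
      have h2 : L a ^ (p.1 - q.1) * L b ^ (p.2 - q.2) = 1 := by
        rw [zpow_sub₀ hLa, zpow_sub₀ hLb, div_mul_div_comm, h1]
        exact div_self (mul_ne_zero (zpow_ne_zero _ hLa) (zpow_ne_zero _ hLb))
      have h3 := hind _ _ h2
      exact Prod.ext (by omega) (by omega)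
  refine rigid ha.1.2 hb.1.2 (hcomm b hb) (Ga A) (fun g hg => hg.2) (fun g hg => hcomm _ (hconj g hg)) ?_ ?_
  · intro g hg x hx
    rw [hXo] at hx ⊢
    intro h
    apply hx
    apply g.injective
    rw [h, hgo g hg]
  · intro g hg x hx
    rw [hXo, not_not] at hx
    rw [hx]
    exact hgo g hg

/-! ### the triangle -/

theorem tri {R : ℝ} (hR : 0 < R) (F : Set ℂ) (hF : ∀ x ∈ F, (|x.re| ≤ R ∧ |x.im| ≤ R) ∨ x = ⟨10 * R, 0⟩ ∨
      x = ⟨-(10 * R), 0⟩ ∨ x = ⟨R, 15 * R⟩) (hp : (⟨10 * R, 0⟩ : ℂ) ∈ F) (hq : (⟨-(10 * R), 0⟩ : ℂ) ∈ F)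
    (hr : (⟨R, 15 * R⟩ : ℂ) ∈ F) (g : Perm ℂ) (hg : Isometry g) (hgF : ∀ x, x ∈ F → g x ∈ F) : g = 1 := by
  have hd : ∀ x y : ℂ, dist x y ^ 2 = (x.re - y.re) ^ 2 + (x.im - y.im) ^ 2 := by
    intro x y
    rw [Complex.dist_eq, Complex.sq_norm, Complex.normSq_apply]
    simp only [Complex.sub_re, Complex.sub_im]
    ring
  have hR2 : 0 < R ^ 2 := by positivity
  set p : ℂ := ⟨10 * R, 0⟩ with hpd
  set q : ℂ := ⟨-(10 * R), 0⟩ with hqd
  set r : ℂ := ⟨R, 15 * R⟩ with hrd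
  have key : ∀ x ∈ F, ∀ y ∈ F, 300 * R ^ 2 ≤ dist x y ^ 2 →
      ((x = p ∧ y = q) ∨ (x = q ∧ y = p)) ∨ ((x = q ∧ y = r) ∨ (x = r ∧ y = q)) ∨ ((x = p ∧ y = r) ∨ (x = r ∧ y = p)) := by
    intro x hx y hy h
    rw [hd] at h
    rcases hF x hx with ⟨h1, h2⟩ | h1 | h1 | h1 <;> rcases hF y hy with ⟨h3, h4⟩ | h3 | h3 | h3
    all_goals first
      | (exfalso
         rw [abs_le] at h1 h2 h3 h4
         nlinarith)
      | (exfalso
         rw [abs_le] at h1 h2
         rw [h3] at h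
         simp only [hpd, hqd, hrd] at h
         nlinarith)
      | (exfalso
         rw [abs_le] at h3 h4
         rw [h1] at h
         simp only [hpd, hqd, hrd] at h
         nlinarith)
      | (exfalso
         rw [h1, h3] at h
         simp only [sub_self] at h
         nlinarith)
      | (rw [h1, h3]; simp)
  have hpq : dist p q ^ 2 = 400 * R ^ 2 := by rw [hd]; simp only [hpd, hqd]; ring
  have hqr : dist q r ^ 2 = 346 * R ^ 2 := by rw [hd]; simp only [hrd, hqd]; ring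
  have hpr : dist p r ^ 2 = 306 * R ^ 2 := by rw [hd]; simp only [hrd, hpd]; ring
  have hqp : dist q p ^ 2 = 400 * R ^ 2 := by rw [dist_comm, hpq]
  have hrq : dist r q ^ 2 = 346 * R ^ 2 := by rw [dist_comm, hqr]
  have hrp : dist r p ^ 2 = 306 * R ^ 2 := by rw [dist_comm, hpr]
  have hne1 : p ≠ q := by
    intro h; rw [h, dist_self] at hpq; nlinarith
  have hne2 : q ≠ r := by
    intro h; rw [h, dist_self] at hqr; nlinarith
  have hne3 : p ≠ r := by
    intro h; rw [h, dist_self] at hpr; nlinarith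
  have k1 : (g p = p ∧ g q = q) ∨ (g p = q ∧ g q = p) := by
    have h1 : dist (g p) (g q) ^ 2 = 400 * R ^ 2 := by rw [hg.dist_eq, hpq]
    rcases key _ (hgF p hp) _ (hgF q hq) (by rw [h1]; nlinarith) with h | h | h
    · exact h
    · exfalso
      rcases h with ⟨e1, e2⟩ | ⟨e1, e2⟩ <;> rw [e1, e2] at h1 <;> nlinarith
    · exfalso
      rcases h with ⟨e1, e2⟩ | ⟨e1, e2⟩ <;> rw [e1, e2] at h1 <;> nlinarith
  have k2 : (g q = q ∧ g r = r) ∨ (g q = r ∧ g r = q) := by
    have h1 : dist (g q) (g r) ^ 2 = 346 * R ^ 2 := by rw [hg.dist_eq, hqr]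
    rcases key _ (hgF q hq) _ (hgF r hr) (by rw [h1]; nlinarith) with h | h | h
    · exfalso
      rcases h with ⟨e1, e2⟩ | ⟨e1, e2⟩ <;> rw [e1, e2] at h1 <;> nlinarith
    · exact h
    · exfalso
      rcases h with ⟨e1, e2⟩ | ⟨e1, e2⟩ <;> rw [e1, e2] at h1 <;> nlinarith
  have k3 : g p = p ∧ g q = q ∧ g r = r := by
    rcases k1 with ⟨a1, a2⟩ | ⟨a1, a2⟩ <;> rcases k2 with ⟨b1, b2⟩ | ⟨b1, b2⟩
    · exact ⟨a1, a2, b2⟩
    · exact absurd (a2.symm.trans b1) hne2
    · exact absurd (a2.symm.trans b1) hne1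
    · exact absurd (a2.symm.trans b1) hne3
  obtain ⟨e1, e2, e3⟩ := k3
  rcases form hg with ⟨u, w, hu, h⟩ | ⟨u, w, hu, h⟩
  · rw [h] at e1 e2
    have h3 : (u - 1) * (p - q) = 0 := by linear_combination e1 - e2
    have h4 : u = 1 := sub_eq_zero.1 ((mul_eq_zero.1 h3).resolve_right (sub_ne_zero.2 hne1))
    rw [h4] at e1
    have h5 : w = 0 := by linear_combination e1
    ext z
    rw [h, h4, h5]; simp
  · exfalso
    have hcp : (starRingEnd ℂ) p = p := by
      apply Complex.ext <;> simp [hpd]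
    have hcq : (starRingEnd ℂ) q = q := by
      apply Complex.ext <;> simp [hqd]
    rw [h] at e1 e2 e3
    rw [hcp] at e1
    rw [hcq] at e2
    have h3 : (u - 1) * (p - q) = 0 := by linear_combination e1 - e2
    have h4 : u = 1 := sub_eq_zero.1 ((mul_eq_zero.1 h3).resolve_right (sub_ne_zero.2 hne1))
    rw [h4] at e1 e3
    have h5 : w = 0 := by linear_combination e1
    rw [h5] at e3
    have := congrArg Complex.im e3
    simp [hrd] at this
    linarith

/-- **Main theorem.**  Every subset of the plane becomes rigid after changing at most three points. -/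
theorem plane (A : Set ℂ) : ∃ T : Set ℂ, T.encard ≤ 3 ∧
    ∀ g : Perm ℂ, Isometry g → (∀ x, g x ∈ Fl A T ↔ x ∈ Fl A T) → g = 1 := by
  by_cases hc : (Ga A).Countable
  · obtain ⟨s, hs⟩ := countable_case hc
    refine ⟨{s}, by rw [encard_singleton]; norm_num, fun g hg h => hs g ⟨hg, al_of_fl (finite_singleton s) h⟩ h⟩
  have hC : ∃ C : Set ℂ, {x | ¬ (x ∈ C ↔ x ∈ A)}.Finite ∧ ∀ g ∈ Ga A, ∀ x, g x ∈ C ↔ x ∈ C := by
    by_cases hT : (Tr A).Countable
    · exact rot_case hT (Gp_unc hc)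
    · exact tr_case hT
  obtain ⟨C, hS, hC⟩ := hC
  obtain ⟨R, hR, hSR⟩ : ∃ R : ℝ, 0 < R ∧ ∀ x : ℂ, ¬ (x ∈ C ↔ x ∈ A) → |x.re| ≤ R ∧ |x.im| ≤ R := by
    obtain ⟨R, hR⟩ := hS.isBounded.exists_norm_le
    refine ⟨max R 1, by positivity, fun x hx => ?_⟩
    have h1 : ‖x‖ ≤ max R 1 := (hR x hx).trans (le_max_left _ _)
    exact ⟨(Complex.abs_re_le_norm x).trans h1, (Complex.abs_im_le_norm x).trans h1⟩
  set T : Set ℂ := {⟨10 * R, 0⟩, ⟨-(10 * R), 0⟩, ⟨R, 15 * R⟩} with hT
  have hTf : T.Finite := by rw [hT]; exact Set.toFinite _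
  have hTS : ∀ x ∈ T, (x ∈ C ↔ x ∈ A) := by
    intro x hx
    by_contra hcon
    obtain ⟨h1, h2⟩ := hSR x hcon
    rw [hT] at hx
    rcases hx with rfl | rfl | rfl
    · simp only at h1
      rw [abs_of_pos (by positivity)] at h1
      linarith
    · simp only at h1
      rw [abs_neg, abs_of_pos (by positivity)] at h1
      linarith
    · simp only at h2
      rw [abs_of_pos (by positivity)] at h2
      linarith
  refine ⟨T, ?_, fun g hg h => ?_⟩
  · rw [hT]
    refine (encard_insert_le _ _).trans ?_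
    have := encard_insert_le ({⟨R, 15 * R⟩} : Set ℂ) ⟨-(10 * R), 0⟩
    rw [encard_singleton] at this
    calc _ ≤ (1 + 1 : ℕ∞) + 1 := by gcongr
      _ = 3 := by norm_num
  · have hgG : g ∈ Ga A := ⟨hg, al_of_fl hTf h⟩
    refine tri hR {x | ¬ ((¬ (x ∈ C ↔ x ∈ A)) ↔ x ∈ T)} ?_ ?_ ?_ ?_ g hg ?_
    · intro x hx
      simp only [mem_ofPred_eq] at hx
      by_cases hxT : x ∈ T
      · right
        rw [hT] at hxT
        exact hxT
      · left
        apply hSR
        tauto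
    · have h1 : (⟨10 * R, 0⟩ : ℂ) ∈ T := by rw [hT]; simp
      have := hTS _ h1
      simp only [mem_ofPred_eq]
      tauto
    · have h1 : (⟨-(10 * R), 0⟩ : ℂ) ∈ T := by rw [hT]; simp
      have := hTS _ h1
      simp only [mem_ofPred_eq]
      tauto
    · have h1 : (⟨R, 15 * R⟩ : ℂ) ∈ T := by rw [hT]; simp
      have := hTS _ h1
      simp only [mem_ofPred_eq]
      tauto
    · intro x hx
      have h1 := hC g hgG x
      have h2 := h x
      unfold Fl at h2
      simp only [mem_ofPred_eq] at h2 hx ⊢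
      tauto

end Pool.Agent.KS6_12.RN
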