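import Pool.Graph.R_pool_sql_team_22a80281.Lib.helper19_.Replace

/-!
A colouring of `ℝ³` which no change of countably many points makes distinguishing
(after the library result for finite changes).
-/

set_option autoImplicit false

namespace Pool.Agent.KS6_12.RN.Three

open Cardinal Set Matrix Pool.Agent.Lib.helper19 Precol Replace

abbrev E (n : ℕ) := EuclideanSpace ℝ (Fin n)

/-- only the identity isometry preserves the colouring -/
def Dist {n k : ℕ} (c : E n → Fin k) : Prop :=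
  ∀ f : E n ≃ᵢ E n, (∀ x, c (f x) = c x) → f = IsometryEquiv.refl _

abbrev V := Fin 3 → ℝ

def W {C : Type} (t : ℕ → V × C) : Set V := {x | x ≠ 0 ∧ (x = ![1, 0, 0] ∨ ∃ a, (x, a) ∈ range t)}

lemma W_count {C : Type} (t : ℕ → V × C) : (W t).Countable :=
  (((countable_range t).image Prod.fst).insert ![1, 0, 0]).mono fun x hx =>
    hx.2.imp id fun ⟨a, h⟩ => ⟨(x, a), h, rfl⟩

lemma family (k : ℕ) : ∃ S : Set ((ℕ → V × Fin k) × V), ((∀ p ∈ S, p.2 ⬝ᵥ p.2 ≠ 0) ∧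
    ∀ l : List ((ℕ → V × Fin k) × V), (∀ r ∈ l, r ∈ S) → l.IsChain (· ≠ ·) →
      ∀ p ∈ l.getLast?, ∀ q ∈ l.head?, ∀ w ∈ W p.1, M Prod.snd l *ᵥ w ∉ W q.1) ∧
    ∀ t, ∃ p ∈ S, p.1 = t := by
  classical
  refine Recur.recur ?_ _ _ ⟨by simp, ?_⟩ (fun S S' h ⟨a, b⟩ =>
    ⟨fun p hp => a p (h hp), fun l hl => b l fun r hr => h (hl r hr)⟩) (fun S h =>
    ⟨fun p hp => (h {p} (by simpa)).1 p (by simp),
      fun l hl => (h l.toFinset fun r hr => hl r (by simpa using hr)).2 l (by simp)⟩) ?_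
  · have h1 : #(V × Fin k) ≤ 𝔠 := by
      have := power_nat_eq (n := 3) aleph0_le_continuum.{0} (by norm_num)
      rw [← power_natCast] at this
      simp only [mk_prod, lift_id, mk_fin, ← power_def, mk_real, this]
      exact mul_le_of_le aleph0_le_continuum le_rfl (nat_lt_continuum k).le
    have h2 : #(ℕ → V × Fin k) = #(V × Fin k) ^ (ℵ₀ : Cardinal.{0}) := by
      rw [← mk_nat]; rfl
    rw [h2]
    exact (Cardinal.power_le_power_right h1).trans continuum_power_aleph0.le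
  · rintro (_ | ⟨r, l⟩) h
    · simp
    · exact (h r (by simp)).elim
  rintro S hS ⟨a, b⟩ t
  let cs : (ℕ → V × Fin k) × V → Set ℝ := fun p => range p.2 ∪ ⋃ w ∈ W p.1, range w
  obtain ⟨u, u1, -, u2⟩ := fresh (⋃ p ∈ insert (t, 0) S, cs p) ((mk_biUnion_le _ _).trans_lt
    (mul_lt_of_lt aleph0_le_continuum (mk_insert_le.trans_lt
      (add_lt_of_lt aleph0_le_continuum hS (by simpa using nat_lt_continuum 1)))
      (lt_of_le_of_lt (ciSup_le' fun p => ((finite_range _).countable.union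
        ((W_count _).biUnion fun w _ => (finite_range _).countable)).le_aleph0) aleph0_lt_continuum)))
  have a' : ∀ p ∈ insert (t, u) S, p.2 ⬝ᵥ p.2 ≠ 0 := by
    rintro p (rfl | hp)
    exacts [u1, a p hp]
  refine ⟨(t, u), rfl, a', fun l hl hc p hp q hq w hw h => ?_⟩
  by_cases hT : (t, u) ∈ l
  swap
  · exact b l (fun r hr => (hl r hr).resolve_left fun e => hT (e ▸ hr)) hc p hp q hq w hw h
  have k1 : ∀ r ∈ l, ∀ x ∈ W r.1, ∀ i, x i ∈ ⋃ p ∈ insert (t, 0) S, cs p := fun r hr x hx i => by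
    rcases hl r hr with rfl | h
    · exact mem_biUnion (mem_insert _ _) (Or.inr (mem_biUnion hx ⟨i, rfl⟩))
    · exact mem_biUnion (mem_insert_of_mem _ h) (Or.inr (mem_biUnion hx ⟨i, rfl⟩))
  refine u2 Prod.snd (t, u) l w _ rfl hT hw.1 (k1 p (List.mem_of_getLast? hp) w hw)
    (k1 q (List.mem_of_head? hq) _ h) (fun r hr e i => mem_biUnion (mem_insert_of_mem _
      ((hl r hr).resolve_left e)) (Or.inl ⟨i, rfl⟩)) (fun r hr => a' r (hl r hr)) hc ?_ rfl
  rintro m ⟨l1, l2, rfl⟩ h1 h2 h3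
  refine b m (fun r hr => (hl r (by simp [hr])).resolve_left fun e => h1 (e ▸ hr))
    hc.left_of_append.right_of_append _ (List.getLast?_eq_some_getLast h2) _
    (List.head?_eq_some_head h2) ![1, 0, 0] ⟨by simp, Or.inl rfl⟩ ?_
  rw [h3, one_mulVec]
  exact ⟨by simp, Or.inl rfl⟩

theorem three (k : ℕ) (hk : 0 < k) : ∃ c : E 3 → Fin k, ∀ c' : E 3 → Fin k,
    {x | c' x ≠ c x}.Countable → ¬ Dist c' := by
  classical
  obtain ⟨S, ⟨h1, h2⟩, h3⟩ := family k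
  have inv : ∀ (r : S) x, half r.1.2 *ᵥ half r.1.2 *ᵥ x = x := fun r x => by
    rw [mulVec_mulVec, (half_mem (h1 _ r.2)).2, one_mulVec]
  have gen : ∀ l : List S, l.IsChain (· ≠ ·) → ∀ p ∈ l.getLast?, ∀ q ∈ l.head?, ∀ w ∈ W p.1.1,
      l.foldr (fun r y => half r.1.2 *ᵥ y) w ∉ W q.1.1 := fun l hl p hp q hq w hw => by
    have := h2 (l.map Subtype.val) (fun r hr => by
      obtain ⟨a, -, rfl⟩ := List.mem_map.1 hr; exact a.2) ((List.isChain_map _).2
      (hl.imp fun _ _ h => Subtype.val_injective.ne h)) p (by simp [hp.out]) q (by simp [hq.out]) w hw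
    rwa [← M_fold, List.foldr_map] at this
  obtain ⟨c, hc⟩ := Replace.free_col (fun (r : S) y => half r.1.2 *ᵥ y) inv (fun r => W r.1.1) gen
    (fun r x => if h : ∃ a, (x, a) ∈ range r.1.1 then h.choose else ⟨0, hk⟩) ⟨0, hk⟩
  refine ⟨fun x => c x.ofLp, fun c' hf hd => ?_⟩
  obtain ⟨f, hfr⟩ := (hf.insert (WithLp.toLp 2 ![1, 0, 0])).exists_eq_range (insert_nonempty _ _)
  obtain ⟨p, hp, e⟩ := h3 fun n => ((f n).ofLp, c' (f n))
  have key : ∀ x : E 3, x.ofLp ≠ 0 → (if x.ofLp ∈ W p.1 then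
      (if h : ∃ a, (x.ofLp, a) ∈ range p.1 then h.choose else ⟨0, hk⟩) else c x.ofLp) = c' x := by
    intro x hx
    have k : ∀ a, (x.ofLp, a) ∈ range p.1 ↔ (x.ofLp = ![1, 0, 0] ∨ c' x ≠ c x.ofLp) ∧ c' x = a := by
      intro a
      have hm : ∀ y : E 3, y ∈ range f ↔ (y = WithLp.toLp 2 ![1, 0, 0] ∨ c' y ≠ c y.ofLp) := by
        intro y; rw [← hfr]; rfl
      rw [e]
      constructor
      · rintro ⟨n, hn⟩
        rw [Prod.mk.injEq] at hn
        obtain ⟨hn1, hn2⟩ := hn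
        have hfx : f n = x := WithLp.ofLp_injective 2 hn1
        rw [hfx] at hn2
        refine ⟨?_, hn2⟩
        rcases (hm x).1 ⟨n, hfx⟩ with h | h
        · left; rw [h]
        · exact Or.inr h
      · rintro ⟨h, hn2⟩
        obtain ⟨n, hn⟩ := (hm x).2 (h.imp_left fun h => by rw [← h])
        exact ⟨n, by simp only [hn, hn2]⟩
    split_ifs with a b
    · exact ((k _).1 b.choose_spec).2.symm
    · exact absurd (a.2.elim (fun h => ⟨_, (k _).2 ⟨Or.inl h, rfl⟩⟩) id) b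
    · exact by_contra fun h => a ⟨hx, Or.inr ⟨_, (k _).2 ⟨Or.inr (Ne.symm h), rfl⟩⟩⟩
  have i2 : Function.Involutive fun x : E 3 => WithLp.toLp 2 (half p.2 *ᵥ x.ofLp) := fun x => by
    simp [inv ⟨p, hp⟩, -mulVec_mulVec]
  have := hd ⟨i2.toPerm, Isometry.of_dist_eq fun x y => ?_⟩ fun x => ?_
  · refine gen [⟨p, hp⟩] (by simp) _ rfl _ rfl ![1, 0, 0] ⟨by simp, Or.inl rfl⟩ ?_
    have : half p.2 *ᵥ ![1, 0, 0] = ![1, 0, 0] :=
      congrArg (fun f : E 3 ≃ᵢ E 3 => (f (WithLp.toLp 2 ![1, 0, 0])).ofLp) this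
    simp only [List.foldr, this]
    exact ⟨by simp, Or.inl rfl⟩
  · have h : ∀ z : E 3, ‖z‖ ^ 2 = z.ofLp ⬝ᵥ z.ofLp := fun z => by
      rw [EuclideanSpace.norm_sq_eq]; simp [dotProduct, sq]
    rw [dist_eq_norm, dist_eq_norm, ← sq_eq_sq₀ (norm_nonneg _) (norm_nonneg _), h, h]
    show (half p.2 *ᵥ x.ofLp - half p.2 *ᵥ y.ofLp) ⬝ᵥ (half p.2 *ᵥ x.ofLp - half p.2 *ᵥ y.ofLp) = _
    rw [← mulVec_sub, dotProduct_mulVec, vecMul_mulVec, (mem_orthogonalGroup_iff' _ _).1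
      (mem_specialOrthogonalGroup_iff.1 (half_mem (h1 _ hp)).1).1, vecMul_one]
    rfl
  · show c' (WithLp.toLp 2 (half p.2 *ᵥ x.ofLp)) = c' x
    by_cases hx : x.ofLp = 0
    · congr 1; ext1 i; simp [hx]
    · rw [← key x hx, ← key _ fun h => hx (by rw [← inv ⟨p, hp⟩ x.ofLp]; simp_all)]
      exact hc ⟨p, hp⟩ x.ofLp

end Pool.Agent.KS6_12.RN.Three
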